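import Mathlib

set_option autoImplicit false

namespace Pool.Agent.Results.MP_0fbb7a_co.Main

/-- The factor of length `n` of the infinite word `u` starting at position `i`. -/
def seg {A : Type*} (u : ℕ → A) (i n : ℕ) : List A := (List.range n).map (fun k => u (i + k))

/-- The set of finite factors of the infinite word `u` (the empty word included). -/
def factors {A : Type*} (u : ℕ → A) : Set (List A) := {w | ∃ i, seg u i w.length = w}

/-- The number of factors of length `n`. -/
noncomputable def complexity {A : Type*} (u : ℕ → A) (n : ℕ) : ℕ :=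
  {w | w ∈ factors u ∧ w.length = n}.ncard

/-- The number of palindromic factors of length `n`. -/
noncomputable def palComplexity {A : Type*} (u : ℕ → A) (n : ℕ) : ℕ :=
  {w | w ∈ factors u ∧ w.length = n ∧ w.reverse = w}.ncard

/-- The quantity `T_u(n) = C(n+1) - C(n) + 2 - P(n+1) - P(n)`. -/
noncomputable def T {A : Type*} (u : ℕ → A) (n : ℕ) : ℤ :=
  (complexity u (n + 1) : ℤ) - complexity u n + 2 - palComplexity u (n + 1) - palComplexity u n

/-- `v` is a complete return word of `w` in `u`: a factor of `u` longer than `w`, with `w` as a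
prefix and as a suffix, containing exactly two occurrences of `w`. -/
def IsCompleteReturn {A : Type*} (u : ℕ → A) (w v : List A) : Prop :=
  v ∈ factors u ∧ w.length < v.length ∧ w <+: v ∧ w <:+ v ∧
    {i : ℕ | i + w.length ≤ v.length ∧ (v.drop i).take w.length = w}.ncard = 2

section basics

variable {A : Type*} (u : ℕ → A)

@[simp] theorem seg_length (i n : ℕ) : (seg u i n).length = n := by simp [seg]

theorem seg_getElem (i n k : ℕ) (h : k < (seg u i n).length) : (seg u i n)[k] = u (i + k) := by
  simp [seg]

theorem seg_eq_iff (i j n : ℕ) : seg u i n = seg u j n ↔ ∀ k < n, u (i + k) = u (j + k) := by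
  constructor
  · intro h k hk
    have h1 : (seg u i n)[k]'(by simpa using hk) = (seg u j n)[k]'(by simpa using hk) := by
      simp only [h]
    simpa [seg_getElem] using h1
  · intro h
    apply List.ext_getElem (by simp)
    intro k h1 h2
    rw [seg_getElem, seg_getElem]
    exact h k (by simpa using h1)

theorem seg_rev_eq_iff (i j n : ℕ) :
    (seg u i n).reverse = seg u j n ↔ ∀ k < n, u (i + (n - 1 - k)) = u (j + k) := by
  constructor
  · intro h k hk
    have h1 : (seg u i n).reverse[k]'(by simpa using hk) = (seg u j n)[k]'(by simpa using hk) := by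
      simp only [h]
    rw [List.getElem_reverse, seg_getElem, seg_getElem] at h1
    simpa using h1
  · intro h
    apply List.ext_getElem (by simp)
    intro k h1 h2
    rw [List.getElem_reverse, seg_getElem, seg_getElem]
    have := h k (by simpa using h1)
    simpa using this

theorem seg_mem (i n : ℕ) : seg u i n ∈ factors u := ⟨i, by simp⟩

theorem mem_factors_iff (w : List A) : w ∈ factors u ↔ ∃ i, seg u i w.length = w := Iff.rfl

/-- drop and take of a segment -/
theorem seg_drop_take (i n a m : ℕ) (h : a + m ≤ n) :
    ((seg u i n).drop a).take m = seg u (i + a) m := by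
  apply List.ext_getElem
  · simp; omega
  · intro k h1 h2
    rw [List.getElem_take, List.getElem_drop, seg_getElem, seg_getElem]
    congr 1
    omega

/-- The palindrome predicate at a position. -/
def Pal (i n : ℕ) : Prop := (seg u i n).reverse = seg u i n

theorem pal_iff (i n : ℕ) : Pal u i n ↔ ∀ k < n, u (i + (n - 1 - k)) = u (i + k) :=
  seg_rev_eq_iff u i i n

theorem pal_zero (i : ℕ) : Pal u i 0 := by
  rw [pal_iff]; intro k hk; omega

/-- Length of the longest palindromic suffix of the prefix of length `j`. -/
noncomputable def lps (j : ℕ) : ℕ := by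
  classical
  exact Nat.findGreatest (fun m => Pal u (j - m) m) j

theorem lps_le (j : ℕ) : lps u j ≤ j := by
  classical
  exact Nat.findGreatest_le j

theorem lps_pal (j : ℕ) : Pal u (j - lps u j) (lps u j) := by
  classical
  exact Nat.findGreatest_spec (P := fun m => Pal u (j - m) m) (Nat.zero_le j) (pal_zero u _)

theorem le_lps (j m : ℕ) (hm : m ≤ j) (h : Pal u (j - m) m) : m ≤ lps u j := by
  classical
  exact Nat.le_findGreatest hm h

theorem lps_succ_le (j : ℕ) : lps u (j + 1) ≤ lps u j + 2 := by
  by_contra hcon
  push Not at hcon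
  set m := lps u (j + 1) with hm
  have hmle : m ≤ j + 1 := lps_le u (j + 1)
  have hp := lps_pal u (j + 1)
  rw [← hm, pal_iff] at hp
  have h2 : m - 2 ≤ lps u j := by
    refine le_lps u j (m - 2) (by omega) ?_
    rw [pal_iff]
    intro k hk
    have h3 := hp (k + 1) (by omega)
    have e1 : j + 1 - m + (m - 1 - (k + 1)) = j - (m - 2) + (m - 2 - 1 - k) := by omega
    have e2 : j + 1 - m + (k + 1) = j - (m - 2) + k := by omega
    rw [e1, e2] at h3
    exact h3
  omega

theorem seg_drop (i n a : ℕ) (h : a ≤ n) : (seg u i n).drop a = seg u (i + a) (n - a) := by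
  apply List.ext_getElem
  · simp
  · intro k h1 h2
    rw [List.getElem_drop, seg_getElem, seg_getElem]
    congr 1
    omega

theorem seg_take (i n m : ℕ) (h : m ≤ n) : (seg u i n).take m = seg u i m := by
  apply List.ext_getElem
  · simp; omega
  · intro k h1 h2
    rw [List.getElem_take, seg_getElem, seg_getElem]

/-- The longest palindromic suffix of a prefix, if long, has no earlier occurrence. -/
theorem lps_uni (K : ℕ) (hK : ∀ w ∈ factors u, w.reverse = w → K ≤ w.length →
      ∀ v, IsCompleteReturn u w v → v.reverse = v)
    (j : ℕ) (hj : K ≤ lps u j) (i : ℕ) (hi : i < j - lps u j) :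
    seg u i (lps u j) ≠ seg u (j - lps u j) (lps u j) := by
  classical
  intro heq
  set m := lps u j with hm
  have hmj : m ≤ j := lps_le u j
  set s := j - m with hs
  -- the last occurrence before `s`
  set P : ℕ → Prop := fun a => a < s ∧ seg u a m = seg u s m with hP
  set i0 := Nat.findGreatest P s with hi0
  have hPi : P i := ⟨hi, heq⟩
  have hP0 : P i0 := Nat.findGreatest_spec (P := P) (Nat.le_of_lt hi) hPi
  have hlast : ∀ a, i0 < a → a < s → seg u a m ≠ seg u s m := by
    intro a ha1 ha2 hc
    exact Nat.findGreatest_is_greatest (P := P) ha1 (Nat.le_of_lt ha2) ⟨ha2, hc⟩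
  have hi0s : i0 < s := hP0.1
  have hret : IsCompleteReturn u (seg u s m) (seg u i0 (j - i0)) := by
    refine ⟨seg_mem u _ _, by simp; omega, ?_, ?_, ?_⟩
    · rw [← hP0.2, ← seg_take u i0 (j - i0) m (by omega)]
      exact List.take_prefix _ _
    · have h1 : (seg u i0 (j - i0)).drop (s - i0) = seg u s m := by
        rw [seg_drop u _ _ _ (by omega)]
        congr 1 <;> omega
      rw [← h1]
      exact List.drop_suffix _ _
    · have hset : {a : ℕ | a + (seg u s m).length ≤ (seg u i0 (j - i0)).length ∧
          ((seg u i0 (j - i0)).drop a).take (seg u s m).length = seg u s m} = {0, s - i0} := by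
        ext a
        simp only [seg_length, Set.mem_ofPred_eq, Set.mem_insert_iff, Set.mem_singleton_iff]
        constructor
        · rintro ⟨h1, h2⟩
          rw [seg_drop_take u _ _ _ _ h1] at h2
          by_contra hcon
          push Not at hcon
          exact hlast (i0 + a) (by omega) (by omega) h2
        · rintro (h | h)
          · subst h
            refine ⟨by omega, ?_⟩
            rw [seg_drop_take u _ _ _ _ (by omega)]
            exact hP0.2
          · subst h
            refine ⟨by omega, ?_⟩
            rw [seg_drop_take u _ _ _ _ (by omega)]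
            congr 1
            omega
      rw [hset]
      exact Set.ncard_pair (by omega)
  have hpalv := hK (seg u s m) (seg_mem u _ _) (lps_pal u j) (by simpa using hj) _ hret
  have h5 : j - i0 ≤ m := by
    rw [hm]
    refine le_lps u j (j - i0) (by omega) ?_
    have h6 : j - (j - i0) = i0 := by omega
    rw [h6]
    exact hpalv
  omega

/-- Eventually the longest palindromic suffixes of prefixes are long. -/
theorem eventually_long [Finite A] (hinf : {w | w ∈ factors u ∧ w.reverse = w}.Infinite)
    (K : ℕ) (hK : ∀ w ∈ factors u, w.reverse = w → K ≤ w.length →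
      ∀ v, IsCompleteReturn u w v → v.reverse = v) :
    ∃ M, ∀ j, M ≤ j → K ≤ lps u j := by
  set S : Set ℕ := {j | lps u j < K ∧ K ≤ lps u (j + 1)} with hS
  have hfin : S.Finite := by
    refine Set.Finite.of_finite_image (f := fun j => seg u (j + 1 - lps u (j + 1)) (lps u (j + 1)))
      ((List.finite_length_le A (K + 1)).subset ?_) ?_
    · rintro w ⟨j, hj, rfl⟩
      have h1 := lps_succ_le u j
      have h2 := hj.1
      simp only [seg_length, Set.mem_ofPred_eq]
      omega
    · have key : ∀ a ∈ S, ∀ b ∈ S, a < b →
          seg u (a + 1 - lps u (a + 1)) (lps u (a + 1)) =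
            seg u (b + 1 - lps u (b + 1)) (lps u (b + 1)) → False := by
        intro a ha b hb hab heq
        have hlen : lps u (a + 1) = lps u (b + 1) := by
          have := congrArg List.length heq
          simpa using this
        have h3 := lps_le u (a + 1)
        refine lps_uni u K hK (b + 1) hb.2 (a + 1 - lps u (a + 1)) (by omega) ?_
        rw [← heq, hlen]
      intro a ha b hb heq
      rcases lt_trichotomy a b with h | h | h
      · exact (key a ha b hb h heq).elim
      · exact h
      · exact (key b hb a ha h heq.symm).elim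
  obtain ⟨B, hB⟩ := hfin.bddAbove
  refine ⟨B + 1, ?_⟩
  intro j hj
  by_contra hlow
  push Not at hlow
  have hall : ∀ j', j ≤ j' → lps u j' < K := by
    intro j' hj'
    induction j', hj' using Nat.le_induction with
    | base => exact hlow
    | succ j' hj' ih =>
      by_contra hcon
      push Not at hcon
      have : j' ∈ S := ⟨ih, hcon⟩
      have := hB this
      omega
  obtain ⟨w, ⟨hw1, hw2⟩, hw3⟩ := (hinf.sdiff (List.finite_length_le A (K + j))).nonempty
  simp only [Set.mem_ofPred_eq, not_le] at hw3
  obtain ⟨i, hi⟩ := hw1
  have h4 : w.length ≤ lps u (i + w.length) := by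
    refine le_lps u _ _ (by omega) ?_
    have h5 : i + w.length - w.length = i := by omega
    rw [h5]
    unfold Pal
    rw [hi]
    exact hw2
  have h6 := hall (i + w.length) (by omega)
  omega

/-- Position `i` carries the first occurrence of a factor of length `n`, up to reversal. -/
def New (n i : ℕ) : Prop :=
  ∀ i' < i, seg u i' n ≠ seg u i n ∧ (seg u i' n).reverse ≠ seg u i n

theorem new_succ_iff (K M : ℕ) (hK : ∀ w ∈ factors u, w.reverse = w → K ≤ w.length →
      ∀ v, IsCompleteReturn u w v → v.reverse = v)
    (hM : ∀ j, M ≤ j → K ≤ lps u j) (n : ℕ) (hn : M ≤ n + 1) (i : ℕ) :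
    (New u (n + 1) i ∧ ¬ Pal u i (n + 1)) ↔ New u n (i + 1) := by
  constructor
  · rintro ⟨hnew, hnp⟩ i' hi'
    set j := i + (n + 1) with hj
    set m := lps u j with hm
    have hmj : m ≤ j := lps_le u j
    have hKm : K ≤ m := hM j (by omega)
    have hpal := lps_pal u j
    rw [← hm, pal_iff] at hpal
    have hmn : m ≤ n := by
      by_contra hcon
      push Not at hcon
      rcases Nat.lt_or_ge (n + 1) m with h1 | h1
      · -- longer than the edge
        refine (hnew (j - m) (by omega)).2 ?_
        rw [seg_rev_eq_iff]
        intro k hk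
        have h2 := hpal (n + 1 - 1 - k) (by omega)
        have e1 : j - m + (m - 1 - (n + 1 - 1 - k)) = i + k := by omega
        rw [e1] at h2
        exact h2.symm
      · have h2 : m = n + 1 := by omega
        apply hnp
        rw [pal_iff]
        intro k hk
        have h3 := hpal k (by omega)
        have e1 : j - m + (m - 1 - k) = i + (n + 1 - 1 - k) := by omega
        have e2 : j - m + k = i + k := by omega
        rw [e1, e2] at h3
        exact h3
    have huni : ∀ a, a < j - m → seg u a m ≠ seg u (j - m) m :=
      fun a ha => lps_uni u K hK j hKm a ha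
    constructor
    · intro heq
      rw [seg_eq_iff] at heq
      refine huni (i' + (n - m)) (by omega) ?_
      rw [seg_eq_iff]
      intro k hk
      have h2 := heq (n - m + k) (by omega)
      have e1 : i' + (n - m + k) = i' + (n - m) + k := by omega
      have e2 : i + 1 + (n - m + k) = j - m + k := by omega
      rw [e1, e2] at h2
      exact h2
    · intro heq
      rw [seg_rev_eq_iff] at heq
      refine huni i' (by omega) ?_
      rw [seg_eq_iff]
      intro k hk
      have h2 := heq (n - 1 - k) (by omega)
      have h3 := hpal k hk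
      have e1 : i' + (n - 1 - (n - 1 - k)) = i' + k := by omega
      have e2 : i + 1 + (n - 1 - k) = j - m + (m - 1 - k) := by omega
      rw [e1, e2] at h2
      rw [h2, h3]
  · intro hnew
    refine ⟨?_, ?_⟩
    · intro i' hi'
      constructor
      · intro heq
        rw [seg_eq_iff] at heq
        refine (hnew (i' + 1) (by omega)).1 ?_
        rw [seg_eq_iff]
        intro k hk
        have h2 := heq (k + 1) (by omega)
        have e1 : i' + (k + 1) = i' + 1 + k := by omega
        have e2 : i + (k + 1) = i + 1 + k := by omega
        rw [e1, e2] at h2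
        exact h2
      · intro heq
        rw [seg_rev_eq_iff] at heq
        refine (hnew i' (by omega)).2 ?_
        rw [seg_rev_eq_iff]
        intro k hk
        have h2 := heq (k + 1) (by omega)
        have e1 : i' + (n + 1 - 1 - (k + 1)) = i' + (n - 1 - k) := by omega
        have e2 : i + (k + 1) = i + 1 + k := by omega
        rw [e1, e2] at h2
        exact h2
    · intro hp
      rw [pal_iff] at hp
      refine (hnew i (by omega)).2 ?_
      rw [seg_rev_eq_iff]
      intro k hk
      have h2 := hp (k + 1) (by omega)
      have e1 : i + (n + 1 - 1 - (k + 1)) = i + (n - 1 - k) := by omega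
      have e2 : i + (k + 1) = i + 1 + k := by omega
      rw [e1, e2] at h2
      exact h2

theorem new_inj (n a b : ℕ) (ha : New u n a) (hb : New u n b) (h : seg u a n = seg u b n) :
    a = b := by
  rcases lt_trichotomy a b with hab | hab | hab
  · exact ((hb a hab).1 h).elim
  · exact hab
  · exact ((ha b hab).1 h.symm).elim

theorem exists_new (n : ℕ) (w : List A) (h : ∃ i, seg u i n = w ∨ (seg u i n).reverse = w) :
    ∃ i, New u n i ∧ (seg u i n = w ∨ (seg u i n).reverse = w) := by
  classical
  refine ⟨Nat.find h, ?_, Nat.find_spec h⟩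
  intro i' hi'
  have hmin := Nat.find_min h hi'
  push Not at hmin
  have hsp := Nat.find_spec h
  constructor
  · intro heq
    rw [← heq] at hsp
    rcases hsp with h1 | h1
    · exact hmin.1 h1
    · exact hmin.2 h1
  · intro heq
    rw [← heq, List.reverse_reverse] at hsp
    rcases hsp with h1 | h1
    · exact hmin.2 h1
    · exact hmin.1 h1

end basics

section counting

variable {A : Type*} (u : ℕ → A)

/-- New palindromic positions. -/
def Np (n : ℕ) : Set ℕ := {i | New u n i ∧ Pal u i n}

/-- New non-palindromic positions. -/
def Nn (n : ℕ) : Set ℕ := {i | New u n i ∧ ¬ Pal u i n}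

theorem new_finite [Finite A] (n : ℕ) : {i | New u n i}.Finite := by
  refine Set.Finite.of_finite_image (f := fun i => seg u i n)
    ((List.finite_length_eq A n).subset ?_) ?_
  · rintro w ⟨i, -, rfl⟩
    simp
  · intro a ha b hb h
    exact new_inj u n a b ha hb h

theorem palComplexity_eq (n : ℕ) : palComplexity u n = (Np u n).ncard := by
  have himg : {w | w ∈ factors u ∧ w.length = n ∧ w.reverse = w} =
      (fun i => seg u i n) '' (Np u n) := by
    ext w
    constructor
    · rintro ⟨⟨i, hi⟩, hlen, hrev⟩
      rw [hlen] at hi
      obtain ⟨a, ha1, ha2⟩ := exists_new u n w ⟨i, Or.inl hi⟩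
      have h3 : seg u a n = w := by
        rcases ha2 with h | h
        · exact h
        · have h4 := congrArg List.reverse h
          rw [List.reverse_reverse, hrev] at h4
          exact h4
      refine ⟨a, ⟨ha1, ?_⟩, h3⟩
      unfold Pal
      rw [h3]
      exact hrev
    · rintro ⟨i, ⟨-, hi⟩, rfl⟩
      exact ⟨seg_mem u i n, by simp, hi⟩
  unfold palComplexity
  rw [himg, Set.ncard_image_of_injOn]
  intro a ha b hb h
  exact new_inj u n a b ha.1 hb.1 h

theorem complexity_eq [Finite A] (hrev : ∀ w ∈ factors u, w.reverse ∈ factors u) (n : ℕ) :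
    complexity u n = (Np u n).ncard + 2 * (Nn u n).ncard := by
  have hNn : (Nn u n).Finite := (new_finite u n).subset (fun i hi => hi.1)
  have hNp : (Np u n).Finite := (new_finite u n).subset (fun i hi => hi.1)
  have himg : {w | w ∈ factors u ∧ w.length = n} =
      ((fun i => seg u i n) '' (Np u n)) ∪ (((fun i => seg u i n) '' (Nn u n)) ∪
        ((fun i => (seg u i n).reverse) '' (Nn u n))) := by
    ext w
    constructor
    · rintro ⟨⟨i, hi⟩, hlen⟩
      rw [hlen] at hi
      obtain ⟨a, ha1, ha2⟩ := exists_new u n w ⟨i, Or.inl hi⟩
      by_cases hp : Pal u a n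
      · left
        refine ⟨a, ⟨ha1, hp⟩, ?_⟩
        rcases ha2 with h | h
        · exact h
        · unfold Pal at hp
          rw [hp] at h
          exact h
      · right
        rcases ha2 with h | h
        · left; exact ⟨a, ⟨ha1, hp⟩, h⟩
        · right; exact ⟨a, ⟨ha1, hp⟩, h⟩
    · rintro (⟨i, -, rfl⟩ | ⟨i, -, rfl⟩ | ⟨i, -, rfl⟩)
      · exact ⟨seg_mem u i n, by simp⟩
      · exact ⟨seg_mem u i n, by simp⟩
      · exact ⟨hrev _ (seg_mem u i n), by simp⟩
  have hd2 : Disjoint ((fun i => seg u i n) '' (Nn u n))
      ((fun i => (seg u i n).reverse) '' (Nn u n)) := by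
    rw [Set.disjoint_left]
    rintro w ⟨a, ha, rfl⟩ ⟨b, hb, hab⟩
    have hab' : (seg u b n).reverse = seg u a n := hab
    rcases lt_trichotomy a b with h | h | h
    · refine (hb.1 a h).2 ?_
      rw [← hab', List.reverse_reverse]
    · subst h
      exact ha.2 hab'
    · exact (ha.1 b h).2 hab'
  have hd1 : Disjoint ((fun i => seg u i n) '' (Np u n)) (((fun i => seg u i n) '' (Nn u n)) ∪
        ((fun i => (seg u i n).reverse) '' (Nn u n))) := by
    rw [Set.disjoint_left]
    rintro w ⟨a, ha, rfl⟩ (⟨b, hb, hab⟩ | ⟨b, hb, hab⟩)
    · have hab' : seg u b n = seg u a n := hab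
      have := new_inj u n b a hb.1 ha.1 hab'
      subst this
      exact hb.2 ha.2
    · have hab' : (seg u b n).reverse = seg u a n := hab
      apply hb.2
      have h1 : Pal u a n := ha.2
      unfold Pal at h1 ⊢
      rw [hab']
      have h2 := congrArg List.reverse hab'
      rw [List.reverse_reverse, h1] at h2
      exact h2.symm
  unfold complexity
  rw [himg, Set.ncard_union_eq hd1 (hNp.image _) ((hNn.image _).union (hNn.image _)),
    Set.ncard_union_eq hd2 (hNn.image _) (hNn.image _), Set.ncard_image_of_injOn,
    Set.ncard_image_of_injOn, Set.ncard_image_of_injOn]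
  · ring
  · intro a ha b hb h
    exact new_inj u n a b ha.1 hb.1 (List.reverse_injective h)
  · intro a ha b hb h
    exact new_inj u n a b ha.1 hb.1 h
  · intro a ha b hb h
    exact new_inj u n a b ha.1 hb.1 h

end counting

/-- If the language of an infinite word over a finite alphabet is closed under reversal, contains
infinitely many palindromes, and all complete return words of all long enough palindromic factors
are palindromes, then `T_u(n) = 0` for all large `n`. -/
theorem result {A : Type*} [Finite A] (u : ℕ → A)
    (hrev : ∀ w ∈ factors u, w.reverse ∈ factors u)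
    (hinf : {w | w ∈ factors u ∧ w.reverse = w}.Infinite)
    (hK : ∃ K : ℕ, ∀ w ∈ factors u, w.reverse = w → K ≤ w.length →
      ∀ v, IsCompleteReturn u w v → v.reverse = v) :
    ∃ N : ℕ, ∀ n, N ≤ n → T u n = 0 := by
  obtain ⟨K, hK⟩ := hK
  obtain ⟨M, hM⟩ := eventually_long u hinf K hK
  refine ⟨M, ?_⟩
  intro n hn
  have hiff := new_succ_iff u K M hK hM n (by omega)
  have hN : {i | New u n i} = insert 0 ((fun i => i + 1) '' (Nn u (n + 1))) := by
    ext i
    constructor
    · intro hi
      rcases Nat.eq_zero_or_pos i with h0 | h0
      · subst h0; exact Set.mem_insert _ _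
      · right
        refine ⟨i - 1, ?_, by simp; omega⟩
        have h1 : New u n (i - 1 + 1) := by
          have : i - 1 + 1 = i := by omega
          rw [this]; exact hi
        exact (hiff (i - 1)).2 h1
    · rintro (h | ⟨a, ha, rfl⟩)
      · subst h
        intro i' hi'
        omega
      · exact (hiff a).1 ha
  have hcard1 : {i | New u n i}.ncard = (Nn u (n + 1)).ncard + 1 := by
    have hf : ((fun i => i + 1) '' (Nn u (n + 1))).Finite :=
      ((new_finite u (n + 1)).subset (fun i hi => hi.1)).image _
    have h0 : (0 : ℕ) ∉ (fun i => i + 1) '' (Nn u (n + 1)) := by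
      rintro ⟨a, -, ha⟩
      simp at ha
    rw [hN, Set.ncard_insert_of_notMem h0 hf,
      Set.ncard_image_of_injective _ (add_left_injective 1)]
  have hcard2 : {i | New u n i}.ncard = (Np u n).ncard + (Nn u n).ncard := by
    have hun : {i | New u n i} = Np u n ∪ Nn u n := by
      ext i
      constructor
      · intro hi
        by_cases hp : Pal u i n
        · left; exact ⟨hi, hp⟩
        · right; exact ⟨hi, hp⟩
      · rintro (h | h)
        · exact h.1
        · exact h.1
    have hd : Disjoint (Np u n) (Nn u n) := by
      rw [Set.disjoint_left]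
      intro i h1 h2
      exact h2.2 h1.2
    exact hun ▸ Set.ncard_union_eq hd ((new_finite u n).subset (fun i hi => hi.1))
      ((new_finite u n).subset (fun i hi => hi.1))
  have h1 := complexity_eq u hrev n
  have h2 := complexity_eq u hrev (n + 1)
  have h3 := palComplexity_eq u n
  have h4 := palComplexity_eq u (n + 1)
  unfold T
  rw [h1, h2, h3, h4]
  push_cast
  omega

end Pool.Agent.Results.MP_0fbb7a_co.Main
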